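import Pool.Agent.helper31.RLS.Spec

/-! Row rls:DX. -/

set_option autoImplicit false

namespace Pool.Agent.RLS

open Finset

private noncomputable def DX_I (c : ℝ) (H : ℝ → ℝ) (s : ℝ) : ℝ :=
  ∫ t in c..max s c, H (t - 1) / max (t - 1) 1

private noncomputable def DX_seq : ℕ → (ℝ → ℝ) × (ℝ → ℝ)
  | 0 => (fun _ => 1, fun _ => 0)
  | n + 1 => (fun s => 1 + DX_I 3 (DX_seq n).2 s, fun s => DX_I 2 (DX_seq n).1 s)

private lemma DX_cont (c : ℝ) (H : ℝ → ℝ) (hH : Continuous H) : Continuous (DX_I c H) := by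
  have h1 : Continuous fun t : ℝ => H (t - 1) / max (t - 1) 1 := by
    refine Continuous.div (hH.comp (continuous_id.sub continuous_const))
      ((continuous_id.sub continuous_const).max continuous_const) fun t => ?_
    have : (1 : ℝ) ≤ max (t - 1) 1 := le_max_right _ _
    linarith
  have h2 : Continuous fun b => ∫ t in c..b, H (t - 1) / max (t - 1) 1 :=
    intervalIntegral.continuous_primitive (fun a b => h1.intervalIntegrable a b) c
  exact h2.comp (continuous_id.max continuous_const)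

private lemma DX_nonneg (c : ℝ) (H : ℝ → ℝ) (hH : ∀ s, 0 ≤ H s) (s : ℝ) : 0 ≤ DX_I c H s := by
  refine intervalIntegral.integral_nonneg (le_max_right _ _) fun t _ => ?_
  refine div_nonneg (hH _) ?_
  have : (1 : ℝ) ≤ max (t - 1) 1 := le_max_right _ _
  linarith

private lemma DX_zero (c : ℝ) (H : ℝ → ℝ) (s : ℝ) (hs : s ≤ c) : DX_I c H s = 0 := by
  unfold DX_I
  rw [max_eq_right hs, intervalIntegral.integral_same]

private lemma DX_congr (c : ℝ) (H H' : ℝ → ℝ) (s b : ℝ) (hs : s ≤ b + 1)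
    (h : ∀ t, t ≤ b → H t = H' t) : DX_I c H s = DX_I c H' s := by
  rcases le_or_gt s c with h1 | h1
  · rw [DX_zero c H s h1, DX_zero c H' s h1]
  · unfold DX_I
    rw [max_eq_left h1.le]
    refine intervalIntegral.integral_congr fun t ht => ?_
    rw [Set.uIcc_of_le h1.le] at ht
    show H (t - 1) / max (t - 1) 1 = H' (t - 1) / max (t - 1) 1
    rw [h (t - 1) (by linarith [ht.2])]

private lemma DX_all (n : ℕ) : Continuous (DX_seq n).1 ∧ Continuous (DX_seq n).2 ∧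
    (∀ s, 1 ≤ (DX_seq n).1 s) ∧ (∀ s, 0 ≤ (DX_seq n).2 s) ∧
    (∀ s, s ≤ 3 → (DX_seq n).1 s = 1) ∧ (∀ s, s ≤ 2 → (DX_seq n).2 s = 0) := by
  induction n with
  | zero =>
    exact ⟨continuous_const, continuous_const, fun _ => le_refl _, fun _ => le_refl _,
      fun _ _ => rfl, fun _ _ => rfl⟩
  | succ n ih =>
    obtain ⟨h1, h2, h3, h4, -, -⟩ := ih
    refine ⟨continuous_const.add (DX_cont 3 _ h2), DX_cont 2 _ h1, fun s => ?_, fun s => ?_,
      fun s hs => ?_, fun s hs => ?_⟩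
    · have := DX_nonneg 3 _ h4 s
      show 1 ≤ 1 + DX_I 3 (DX_seq n).2 s
      linarith
    · exact DX_nonneg 2 _ (fun s => by linarith [h3 s]) s
    · show 1 + DX_I 3 (DX_seq n).2 s = 1
      rw [DX_zero 3 _ s hs, add_zero]
    · exact DX_zero 2 _ s hs

private lemma DX_agree (n : ℕ) : ∀ s : ℝ, s ≤ (n : ℝ) + 2 →
    (DX_seq (n + 1)).1 s = (DX_seq n).1 s ∧ (DX_seq (n + 1)).2 s = (DX_seq n).2 s := by
  induction n with
  | zero =>
    intro s hs
    rw [Nat.cast_zero, zero_add] at hs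
    constructor
    · rw [(DX_all 1).2.2.2.2.1 s (by linarith), (DX_all 0).2.2.2.2.1 s (by linarith)]
    · rw [(DX_all 1).2.2.2.2.2 s hs, (DX_all 0).2.2.2.2.2 s hs]
  | succ n ih =>
    intro s hs
    rw [Nat.cast_add, Nat.cast_one] at hs
    constructor
    · show 1 + DX_I 3 (DX_seq (n + 1)).2 s = 1 + DX_I 3 (DX_seq n).2 s
      rw [DX_congr 3 _ _ s ((n : ℝ) + 2) (by linarith) fun t ht => (ih t ht).2]
    · show DX_I 2 (DX_seq (n + 1)).1 s = DX_I 2 (DX_seq n).1 s
      exact DX_congr 2 _ _ s ((n : ℝ) + 2) (by linarith) fun t ht => (ih t ht).1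

private lemma DX_int (c : ℝ) (hc : 2 ≤ c) (H : ℝ → ℝ) (s : ℝ) (hs : c ≤ s) :
    DX_I c H s = ∫ t in c..s, H (t - 1) / (t - 1) := by
  unfold DX_I
  rw [max_eq_left hs]
  refine intervalIntegral.integral_congr fun t ht => ?_
  rw [Set.uIcc_of_le hs] at ht
  show H (t - 1) / max (t - 1) 1 = H (t - 1) / (t - 1)
  rw [max_eq_left (by linarith [ht.1])]

theorem DX : DX_stmt := by
  intro u _
  obtain ⟨n, hn⟩ := exists_nat_ge u
  obtain ⟨h1, h2, h3, h4, h5, h6⟩ := DX_all n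
  refine ⟨(DX_seq n).1, (DX_seq n).2, ⟨h1, h2, h5, h6, h3, h4, fun s hs hu => ?_,
    fun s hs hu => ?_⟩⟩
  · rw [← (DX_agree n s (by linarith)).1]
    show 1 + DX_I 3 (DX_seq n).2 s = _
    rw [DX_int 3 (by norm_num) _ s hs]
  · rw [← (DX_agree n s (by linarith)).2]
    exact DX_int 2 le_rfl _ s hs

end Pool.Agent.RLS
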